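import Mathlib
import Pool.Agent.Lib.helper12.Real

namespace Pool.Agent.Results.MP_0be8ec_al.NoPI

open Pool.Agent.Lib.helper12.Real Filter MonoidAlgebra

abbrev M := Multiplicative ℚ≥0 × FreeMonoid ℕ

def dg (m : M) : ℚ≥0 := m.1.toAdd

lemma dg_mul (a b : M) : dg (a * b) = dg a + dg b := rfl

abbrev W := MonoidAlgebra ℚ M

def Low (a : ℚ≥0) (f : W) : Prop := ∀ m, f.coeff m ≠ 0 → a ≤ dg m

lemma Low.mul {a b : ℚ≥0} {f g : W} (hf : Low a f) (hg : Low b g) : Low (a + b) (f * g) := by
  classical
  intro m hm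
  obtain ⟨x, hx, y, hy, rfl⟩ := Finset.mem_mul.mp
    (support_coeff_mul_subset f g (Finsupp.mem_support_iff.mpr hm))
  exact add_le_add (hf x (Finsupp.mem_support_iff.mp hx)) (hg y (Finsupp.mem_support_iff.mp hy))

lemma low_single (m : M) : Low (dg m) (single m 1) := by
  classical
  intro x hx
  rw [coeff_single, Finsupp.single_apply] at hx
  split_ifs at hx with h
  · rw [h]
  · simp at hx

def I : Ideal W where
  carrier := {f | ∀ m, dg m ≤ 1 → f.coeff m = 0}
  zero_mem' := by simp
  add_mem' := fun ha hb m hm => by simp [ha m hm, hb m hm]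
  smul_mem' := by
    classical
    intro c f hf m hm
    by_contra h
    obtain ⟨x, hx, y, hy, rfl⟩ := Finset.mem_mul.mp
      (support_coeff_mul_subset c f (Finsupp.mem_support_iff.mpr h))
    exact Finsupp.mem_support_iff.mp hy (hf y (le_trans le_add_self hm))

instance : I.IsTwoSided where
  mul_mem_of_left := by
    classical
    intro f c hf m hm
    by_contra h
    obtain ⟨x, hx, y, hy, rfl⟩ := Finset.mem_mul.mp
      (support_coeff_mul_subset f c (Finsupp.mem_support_iff.mpr h))
    exact Finsupp.mem_support_iff.mp hx (hf x (le_trans le_self_add hm))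

lemma Low.mem {a : ℚ≥0} {f : W} (hf : Low a f) (ha : 1 < a) : f ∈ I := fun m hm => by
  by_contra h
  exact absurd (hf m h) (not_le.mpr (hm.trans_lt ha))

abbrev V := W ⧸ I

instance : Countable M := by
  have : Countable (FreeMonoid ℕ) := inferInstanceAs (Countable (List ℕ))
  have : Countable (Multiplicative ℚ≥0) := inferInstanceAs (Countable {q : ℚ // 0 ≤ q})
  infer_instance

noncomputable def en : ℕ → M := (exists_surjective_nat M).choose

lemma en_surj : Function.Surjective en := (exists_surjective_nat M).choose_spec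

noncomputable def n (j : ℕ) : V :=
  if 0 < dg (en j) then Ideal.Quotient.mk I (single (en j) 1) else 0

noncomputable def R : Subring V :=
  Subring.closure (Set.range n ∪ Set.range (fun _ : ℕ => (0 : V)))

lemma nil (j : ℕ) : IsNilpotent (n j) := by
  unfold n
  split_ifs with h
  · obtain ⟨k, hk⟩ := exists_lt_nsmul h 1
    refine ⟨k, ?_⟩
    rw [← map_pow, single_pow, one_pow, Ideal.Quotient.eq_zero_iff_mem]
    exact (low_single _).mem hk
  · simp

lemma sR (m : M) (h : 0 < dg m) : Ideal.Quotient.mk I (single m 1) ∈ R := by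
  obtain ⟨j, rfl⟩ := en_surj m
  exact Subring.subset_closure (Or.inl ⟨j, if_pos h⟩)

lemma redQ (q : ℚ) (h : ∃ᶠ p : ℕ in atTop, ∃ z : ℤ, q = p * z) : q = 0 := by
  obtain ⟨p, ⟨z, rfl⟩, hp⟩ := (h.and_eventually (tendsto_natCast_atTop_atTop (R := ℚ)
    |>.eventually_gt_atTop |q|)).exists
  by_contra h0
  have hz : z ≠ 0 := by rintro rfl; simp at h0
  have : (1 : ℚ) ≤ |(z : ℚ)| := by exact_mod_cast Int.one_le_abs hz
  rw [abs_mul, Nat.abs_cast] at hp
  nlinarith [Nat.cast_nonneg (α := ℚ) p]

lemma hred : Red R := by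
  have hle : R ≤ ((Ideal.Quotient.mk I).comp (mapRingHom M (Int.castRingHom ℚ))).range := by
    rw [R, Subring.closure_le]
    rintro x (⟨j, rfl⟩ | ⟨j, rfl⟩)
    · unfold n
      split_ifs
      · exact ⟨single (en j) 1, by simp⟩
      · exact zero_mem _
    · exact zero_mem _
  intro v h
  obtain ⟨f, rfl⟩ := Ideal.Quotient.mk_surjective v
  rw [Ideal.Quotient.eq_zero_iff_mem]
  intro m hm
  refine redQ _ (h.mono ?_)
  rintro p ⟨-, r, hr, h⟩
  obtain ⟨g, rfl⟩ := hle hr
  rw [RingHom.comp_apply, ← map_nsmul, Ideal.Quotient.eq] at h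
  have := h m hm
  rw [coeff_sub, coeff_smul, Finsupp.sub_apply, Finsupp.smul_apply, coeff_mapRingHom] at this
  exact ⟨g.coeff m, by simpa [sub_eq_zero] using this⟩

lemma commR {u : V} (h : ∀ j, u * n j = n j * u) : ∀ r ∈ R, u * r = r * u := by
  have : R ≤ Subring.centralizer {u} := by
    rw [R, Subring.closure_le]
    rintro x (⟨j, rfl⟩ | ⟨j, rfl⟩)
    · exact Subring.mem_centralizer_iff.mpr (by simpa using h j)
    · exact zero_mem _
  intro r hr
  exact Subring.mem_centralizer_iff.mp (this hr) u rfl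

theorem result : ∃ (G : Type) (_ : AddCommGroup G),
    (∀ a : AddMonoid.End G, a ≠ 0 → ∃ x ∈ Subring.center (AddMonoid.End G),
      ∃ y ∈ Subring.center (AddMonoid.End G), a * x = y ∧ y ≠ 0) ∧
    ∀ f : FreeAlgebra ℤ ℕ, f ≠ 0 → ∃ r : ℕ → AddMonoid.End G, FreeAlgebra.lift ℤ r f ≠ 0 := by
  obtain ⟨G, ev, h1, hrat, hinj, hev, hsur, happ⟩ :=
    realize (R := R) n (fun _ => 0) nil (by simp) rfl hred
  refine ⟨G, inferInstance, fun a ha => ?_, fun f hf => ?_⟩
  · suffices H : _ by
      obtain ⟨x, hx, y, hy, -, h2, h3⟩ :=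
        ce_of (R := R) ev hinj (fun φ => hrat (hev φ)) hsur H a ha
      exact ⟨x, hx, y, hy, h3, h2⟩
    intro v _ hv
    obtain ⟨f, rfl⟩ := Ideal.Quotient.mk_surjective v
    rw [Ne, Ideal.Quotient.eq_zero_iff_mem] at hv
    have hv' : ∃ m, dg m ≤ 1 ∧ f.coeff m ≠ 0 := by
      by_contra h
      push Not at h
      exact hv h
    obtain ⟨m1, h1, h2⟩ := hv'
    obtain ⟨m0, h3, h4⟩ := f.coeff.support.exists_min_image dg
      ⟨m1, Finsupp.mem_support_iff.mpr h2⟩
    have h5 : dg m0 ≤ 1 := (h4 m1 (Finsupp.mem_support_iff.mpr h2)).trans h1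
    obtain ⟨b, hb⟩ := exists_add_of_le h5
    have hl : Low (dg m0) f := fun m hm => h4 m (Finsupp.mem_support_iff.mpr hm)
    let c : M := (Multiplicative.ofAdd b, 1)
    have hc : Low 1 (f * single c 1) := hb ▸ hl.mul (low_single c)
    refine ⟨Ideal.Quotient.mk I (single c 1), ?_, ?_, ?_, commR fun j => ?_⟩
    · rcases eq_zero_or_pos b with h | h
      · have : c = 1 := by simp [c, h]
        rw [this, ← one_def, map_one]
        exact one_mem _
      · exact sR c h
    · intro r _
      obtain ⟨g, rfl⟩ := Ideal.Quotient.mk_surjective r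
      rw [← map_mul, ← map_mul, (single_commute (fun m' => ?_) (fun r => Commute.all _ _) g).eq]
      exact Prod.ext (mul_comm _ _) (by simp [c])
    · rw [← map_mul, Ne, Ideal.Quotient.eq_zero_iff_mem]
      intro h
      have := h (m0 * c) hb.ge
      rw [coeff_mul_single_mul, mul_one] at this
      exact Finsupp.mem_support_iff.mp h3 this
    · unfold n
      split_ifs with h
      · rw [← map_mul, ← map_mul, ← map_mul, Ideal.Quotient.eq_zero_iff_mem.mpr
          ((hc.mul (low_single _)).mem (lt_add_of_pos_right _ h)),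
          Ideal.Quotient.eq_zero_iff_mem.mpr
          (((low_single _).mul hc).mem (lt_add_of_pos_left _ h))]
      · simp
  · have hF : FreeAlgebra.equivMonoidAlgebraFreeMonoid f ≠ 0 := by simpa using hf
    have hF' : ∃ w, (FreeAlgebra.equivMonoidAlgebraFreeMonoid f).coeff w ≠ 0 := by
      by_contra h
      push Not at h
      exact hF (by ext w; simpa using h w)
    obtain ⟨w, hw⟩ := hF'
    let ε : ℚ≥0 := (w.length + 1 : ℚ≥0)⁻¹
    have hε : 0 < ε := by positivity
    let θ : FreeMonoid ℕ →* M := FreeMonoid.lift fun i => (Multiplicative.ofAdd ε, .of i)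
    have hθ : ∀ u, θ u = (Multiplicative.ofAdd (u.length * ε), u) := by
      intro u
      induction u using FreeMonoid.inductionOn' with
      | one => simp; rfl
      | of_mul i u ih =>
        rw [map_mul, ih]
        simp only [θ, FreeMonoid.lift_eval_of, Prod.mk_mul_mk, FreeMonoid.length_mul,
          FreeMonoid.length_of, ← ofAdd_add]
        congr 2
        push_cast
        ring
    have hinj' : Function.Injective θ := fun a b h => by
      simpa [hθ] using congrArg Prod.snd h
    choose r hr using fun i => hsur _ (sR (θ (.of i)) (by simpa [hθ, dg] using hε))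
    refine ⟨r, fun h => hw ?_⟩
    have e : ∀ g, ev (FreeAlgebra.lift ℤ r g) = Ideal.Quotient.mk I
        (mapRingHom M (Int.castRingHom ℚ) (mapDomainRingHom ℤ θ
          (FreeAlgebra.equivMonoidAlgebraFreeMonoid g))) := by
      intro g
      induction g using FreeAlgebra.induction with
      | grade0 z => simp only [eq_intCast, map_intCast]
      | grade1 i =>
        have : FreeAlgebra.equivMonoidAlgebraFreeMonoid (FreeAlgebra.ι ℤ i) = single (.of i) 1 := by
          show FreeAlgebra.lift ℤ (fun x : ℕ => of ℤ (FreeMonoid ℕ) (.of x)) (FreeAlgebra.ι ℤ i) = _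
          simp
        simp [this, hr]
      | mul a b ha hb => simp only [map_mul, ha, hb]
      | add a b ha hb => simp only [map_add, ha, hb]
    have e2 := e f
    rw [h, map_zero] at e2
    have e3 := Ideal.Quotient.eq_zero_iff_mem.mp e2.symm (θ w) (by
      simp only [hθ, dg, toAdd_ofAdd, ε]
      rw [← div_eq_mul_inv, div_le_one (by positivity)]
      simp)
    simpa [mapDomain, Finsupp.mapDomain_apply hinj'] using e3

end Pool.Agent.Results.MP_0be8ec_al.NoPI
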